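import Mathlib
import Pool.Agent.H3.SubsetSumsDefs
import Pool.Agent.H3.SubsetSums
import Pool.Agent.H3.SubsetSumsLower

/-!
# `g_3(k)` is not `3^(k-1)`: exact value at `k = 3`, and bounds for all `k`
-/

set_option autoImplicit false

open Pool.Agent.H3.SubsetSums

namespace Pool.Agent.Results.MP_727445_co.Disproof

lemma r15 : (run l15).2 = true := by decide +kernel

lemma good15 : GoodSet 15 2664433 := by
  refine ⟨l15.toFinset, by decide +kernel, by decide +kernel, by decide +kernel, ?_⟩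
  apply dis_of_chk _ (by decide +kernel)
  have h2 := r15
  rw [run_eq] at h2
  exact h2

lemma attained (k : ℕ) (hk : 3 ≤ k) : ∃ B : Finset ℕ, B.card = k ∧
    (∀ b ∈ B, 0 < b ∧ b ≤ g 3 k) ∧ g 3 k ∈ B ∧ ¬ HasAP 3 (subsetSums B) := by
  have hne : {m | ∃ B : Finset ℕ, B.card = k ∧ (∀ b ∈ B, 0 < b ∧ b ≤ m) ∧ m ∈ B ∧
      ¬ HasAP 3 (subsetSums B)}.Nonempty := by
    obtain ⟨n, rfl⟩ := Nat.exists_eq_add_of_le hk
    obtain ⟨B, hB1, hB2, hB3, hB4⟩ := goodSet_add 3 8 good3 n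
    exact ⟨3 ^ n * 8, B, hB1, hB2, hB3, not_hasAP_of_dis B hB4⟩
  exact Nat.sInf_mem hne

lemma small : ∀ a ∈ Finset.Icc 1 7, ∀ b ∈ Finset.Icc 1 7, ∀ c ∈ Finset.Icc 1 7,
    a ≠ b → a ≠ c → b ≠ c →
    ∃ x ∈ Finset.Icc (-2 : ℤ) 2, ∃ y ∈ Finset.Icc (-2 : ℤ) 2, ∃ z ∈ Finset.Icc (-2 : ℤ) 2,
      (x ≠ 0 ∨ y ≠ 0 ∨ z ≠ 0) ∧ x * ((a : ℕ) : ℤ) + y * ((b : ℕ) : ℤ) + z * ((c : ℕ) : ℤ) = 0 := by
  decide +kernel

lemma g33 : g 3 3 = 8 := by
  apply le_antisymm (g_le 3 8 good3)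
  by_contra hlt
  push Not at hlt
  obtain ⟨B, hcard, hB, -, hAP⟩ := attained 3 le_rfl
  have hdis := dis_of_not_hasAP B (by omega) (fun b hb => (hB b hb).1) hAP
  obtain ⟨a, b, c, hab, hac, hbc, rfl⟩ := Finset.card_eq_three.1 hcard
  have hmem : ∀ x ∈ ({a, b, c} : Finset ℕ), x ∈ Finset.Icc 1 7 := by
    intro x hx
    have := hB x hx
    rw [Finset.mem_Icc]
    omega
  obtain ⟨x, hx, y, hy, z, hz, hne, hrel⟩ := small a (hmem a (by simp)) b (hmem b (by simp)) c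
    (hmem c (by simp)) hab hac hbc
  rw [Finset.mem_Icc] at hx hy hz
  have h1 := hdis (fun n => if n = a then x else if n = b then y else if n = c then z else 0) (by
    intro n
    split_ifs <;> rw [abs_le] <;> constructor <;> omega) (by
    rw [Finset.sum_insert (by simp [hab, hac]), Finset.sum_insert (by simp [hbc]),
      Finset.sum_singleton]
    simp only [if_true, hab.symm, hac.symm, hbc.symm, if_false]
    linarith)
  have ha := h1 a (by simp)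
  have hb := h1 b (by simp)
  have hc := h1 c (by simp)
  simp only [if_true, hab.symm, hac.symm, hbc.symm, if_false] at ha hb hc
  rcases hne with h | h | h
  · exact h ha
  · exact h hb
  · exact h hc

/-- **The conjecture `g_3(k) = 3^(k-1)` is false**: `g_3(3) = 8 < 9`, and `g_3(k) < 3^(k-1)` for every
`k ≥ 3`; moreover `g_3(k) ≤ (2664433 / 3^15) 3^k` for `k ≥ 15` (this is less than
`0.5571 · 3^(k-1)`) and `9^k ≤ 8 k g_3(k)² + 1` for `k ≥ 3`. -/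
theorem result :
    g 3 3 = 8 ∧
    (∀ k : ℕ, 3 ≤ k → g 3 k < 3 ^ (k - 1)) ∧
    (∀ k : ℕ, 15 ≤ k → 3 ^ 15 * g 3 k ≤ 2664433 * 3 ^ k) ∧
    (∀ k : ℕ, 3 ≤ k → 9 ^ k ≤ 8 * k * (g 3 k) ^ 2 + 1) := by
  refine ⟨g33, ?_, ?_, ?_⟩
  · intro k hk
    obtain ⟨n, rfl⟩ := Nat.exists_eq_add_of_le hk
    have h1 := g_le _ _ (goodSet_add 3 8 good3 n)
    refine lt_of_le_of_lt h1 ?_
    have e : 3 + n - 1 = n + 2 := by omega
    rw [e, pow_add]
    have : 0 < 3 ^ n := by positivity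
    omega
  · intro k hk
    obtain ⟨n, rfl⟩ := Nat.exists_eq_add_of_le hk
    have h1 := g_le _ _ (goodSet_add 15 2664433 good15 n)
    calc 3 ^ 15 * g 3 (15 + n) ≤ 3 ^ 15 * (3 ^ n * 2664433) := Nat.mul_le_mul_left _ h1
      _ = 2664433 * 3 ^ (15 + n) := by rw [pow_add]; ring
  · intro k hk
    obtain ⟨B, hcard, hB, -, hAP⟩ := attained k hk
    have hdis := dis_of_not_hasAP B (by omega) (fun b hb => (hB b hb).1) hAP
    have h1 := nine_pow_le B (fun b hb => (hB b hb).1) hdis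
    rw [hcard] at h1
    have h2 : ∑ b ∈ B, b ^ 2 ≤ k * (g 3 k) ^ 2 := by
      have := Finset.sum_le_card_nsmul B (fun b => b ^ 2) ((g 3 k) ^ 2)
        (fun b hb => Nat.pow_le_pow_left (hB b hb).2 2)
      rwa [hcard, smul_eq_mul] at this
    calc 9 ^ k ≤ 8 * ∑ b ∈ B, b ^ 2 + 1 := h1
      _ ≤ 8 * (k * (g 3 k) ^ 2) + 1 := by omega
      _ = 8 * k * (g 3 k) ^ 2 + 1 := by ring

end Pool.Agent.Results.MP_727445_co.Disproof
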